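import Pool.Agent.helper66.SL.SpecB

/-! # Row UEX (MP_ad2b66_co) -/

set_option autoImplicit false

namespace Pool.Agent.helper66.SL

open Pool.Agent.helper52.FC

theorem UEX_key (hBIJ : BIJ) (E : Type) [Finite E] (L : Set (E → SignType))
    (u : E → E → E → E → EuclideanSpace ℝ (Fin 3)) (hL : Good L) (hu : Local L u) (a b c : E)
    (T : E → SignType) (hT : IsTope L T) (J : Set E) (hJ : ∀ g ∈ J, Wall L T g ∧ Cl3 L a b c g) (i : E) :
    ∃ x : EuclideanSpace ℝ (Fin 3), i ∈ J → inner ℝ (u a b c i) x ≠ 0 ∧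
      ∀ g ∈ J, g ≠ i → inner ℝ (u a b c g) x = 0 := by
  by_cases hi : i ∈ J
  · obtain ⟨Y, hY, _, hY0⟩ := (hBIJ E L hL T hT).1 (J \ {i}) (fun e he => (hJ e he.1).1)
    have h1 : (fun g : {g // Cl3 L a b c g} => Y g.1) ∈ restr L (fun g => Cl3 L a b c g) := ⟨Y, hY, fun _ => rfl⟩
    rw [hu.real a b c] at h1
    obtain ⟨x, hx⟩ := h1
    refine ⟨x, fun _ => ⟨?_, ?_⟩⟩
    · intro h0
      have h2 := hx ⟨i, (hJ i hi).2⟩
      simp only at h2
      rw [h0, sign_zero] at h2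
      exact ((hY0 i (hJ i hi).1).1 h2).2 rfl
    · intro g hg hne
      have h2 := hx ⟨g, (hJ g hg).2⟩
      simp only at h2
      have h3 : Y g = 0 := (hY0 g (hJ g hg).1).2 ⟨hg, hne⟩
      rw [h3] at h2
      exact sign_eq_zero_iff.1 h2.symm
  · exact ⟨0, fun h => absurd h hi⟩

theorem UEX_proof (hBIJ : BIJ) : UEX := by
  classical
  intro E _ L u hL hu a b c T hT J hJ a0
  haveI := Fintype.ofFinite E
  choose x hx using UEX_key hBIJ E L u hL hu a b c T hT J hJ
  refine ⟨∑ i ∈ J.toFinset, (a0 i / inner ℝ (u a b c i) (x i)) • (innerₗ (EuclideanSpace ℝ (Fin 3)) (x i)), ?_⟩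
  intro g hg
  rw [LinearMap.sum_apply, Finset.sum_eq_single g]
  · rw [LinearMap.smul_apply, innerₗ_apply_apply, real_inner_comm (u a b c g) (x g), smul_eq_mul,
      div_mul_cancel₀ _ (hx g hg).1]
  · intro i hi hne
    rw [Set.mem_toFinset] at hi
    rw [LinearMap.smul_apply, innerₗ_apply_apply, real_inner_comm (u a b c g) (x i), (hx i hi).2 g hg hne.symm,
      smul_zero]
  · intro h
    exact absurd (Set.mem_toFinset.2 hg) h

end Pool.Agent.helper66.SL
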